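import Pool.Agent.V1157.WF.Defs
import Pool.Agent.V1157.BD.Main
import Pool.Agent.V1157.HI.Main

/-!
# Bounded quotients of homologically trivial classes vanish
-/

open CategoryTheory AlgebraicGeometry

universe u v w

namespace Pool.Agent.V1157.WF

open Pool.Agent.H914 Pool.Agent.H914.VarClass Pool.Agent.H914.VarClass.Obj Pool.Agent.W492.BB
  Pool.Agent.W550.Corr Pool.Agent.TH133 Pool.Agent.Y148.BB Pool.Agent.V1157.BD
open Pool.Agent.V1157.RC (cog_gr pow_eq_sum pow_mem' act_smul' push_pull_of graph_mem)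

set_option linter.unusedSectionVars false

variable {k : Type u} [Field k] {𝒱 : VarClass k} {C : TheoryData.{u, v, 0} 𝒱 ℚ}
  [hC : IsChowProj C] {K : Type w} [Field K] {H : WeilTheoryData.{u, v, w} C K}
  [hH : IsWeilProj H] {S V X Y : 𝒱.Obj} {n : ℕ}

lemma degree_zero (H : WeilTheoryData.{u, v, w} C K) [hH : IsWeilProj H] {z : C.A X} {q : ℚ}
    (hq : HasDegree C z q) (h0 : H.cl z = 0) : q = 0 := by
  by_contra hq0
  have h1 : C.push (snd X X) (C.pull (fst X X) z) = q • 1 := (hq X).1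
  have h2 := congrArg H.cl h1
  have e1 : H.cl (C.push (snd X X) (C.pull (fst X X) z)) = 0 := by
    have e2 := H.cl_push (snd X X) (C.pull (fst X X) z)
    have e3 := H.cl_pull (fst X X) z
    rw [e2, e3, h0, map_zero, map_zero]
  rw [e1] at h2
  have h3 : H.cl ((q⁻¹ • (1 : C.A X)) * (q • 1)) = 0 := by
    rw [map_mul, ← h2, mul_zero]
  rw [smul_mul_assoc, one_mul, smul_smul, inv_mul_cancel₀ hq0, one_smul, map_one] at h3
  exact hH.one_ne_zero X h3

lemma act_pow_hom (H : WeilTheoryData.{u, v, w} C K) [hH : IsWeilProj H] (hS : S.dim = n)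
    {a x : C.A S} (ha : a ∈ C.gr S 1) {j : ℕ} (hx : x ∈ C.gr S j) (h0 : H.cl x = 0) (c : ℚ) :
    C.act (c • (C.pull (fst S S) a + C.pull (snd S S) a) ^ n) x = 0 := by
  rw [act_smul', pow_eq_sum, act_sum, Finset.sum_eq_zero, smul_zero]
  intro i hi
  rw [act_smul']
  have h1 : a ^ i * x ∈ C.gr S ((i : ℤ) + j) := C.mul_mem (pow_mem' ha i) hx
  by_cases hij : i + j = n
  · obtain ⟨q, hq⟩ := exists_hasDegree (gr_congr (by rw [hS]; omega) h1)
    have h2 : q = 0 := degree_zero H hq (by rw [map_mul, h0, mul_zero])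
    rw [h2] at hq
    rw [act_ext' hq, zero_smul, smul_zero]
  · rw [act_ext_zero_of_lt h1 (by rw [hS]; omega), smul_zero]

section power

variable {N : ℕ} {p : ℕ → (V ⟶ S)} {a : C.A S} {b κ : ℚ} (h : Pw C n N p a b κ)
include h

lemma push_pull_hom (H : WeilTheoryData.{u, v, w} C K) [hH : IsWeilProj H] {i l : ℕ} (hi : i < N)
    (hl : l < N) (hil : i ≠ l) {j : ℕ} {x : C.A S} (hx : x ∈ C.gr S j) (h0 : H.cl x = 0) :
    C.push (p l) (C.pull (p i) x) = 0 := by
  rw [← C.act_graph, ← C.act_cograph, ← C.act_comp, cog_gr, h.pq i hi l hl hil]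
  exact act_pow_hom H h.dimS h.ha hx h0 b

end power

/-- **The amplification.** -/
theorem of_atMost (H : WeilTheoryData.{u, v, w} C K) [hH : IsWeilProj H]
    (hP : ∀ (S : 𝒱.Obj) (N : ℕ), S.dim = n → HasPower C n N S) {D j : ℕ}
    {A : ∀ X : 𝒱.Obj, Set (C.A X)} {B : ∀ X : 𝒱.Obj, Submodule ℚ (C.A X)}
    (hA : ∀ (X : 𝒱.Obj) (z : C.A X), X.dim = n → z ∈ A X → C.Deg j z ∧ H.cl z = 0)
    (hpull : ∀ (V X : 𝒱.Obj) (f : V ⟶ X) (z : C.A X), V.dim = n → X.dim = n → z ∈ A X →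
      C.pull f z ∈ A V)
    (hpush : ∀ (V X : 𝒱.Obj) (f : V ⟶ X) (z : C.A V), V.dim = n → X.dim = n → z ∈ B V →
      C.push f z ∈ B X)
    (h : ∀ X : 𝒱.Obj, X.dim = n → AtMost D (A X) (B X)) (X : 𝒱.Obj) (hX : X.dim = n)
    (z : C.A X) (hz : z ∈ A X) : z ∈ B X := by
  obtain ⟨V, p, a, b, κ, hp⟩ := exists_pw hX (hP X (D + 1) hX)
  obtain ⟨c, hc, h1⟩ := h V hp.dimV (fun i => C.pull (p i) z)
    (fun i => hpull V X (p i) z hp.dimV hX hz)
  obtain ⟨i, hi⟩ : ∃ i, c i ≠ 0 := by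
    by_contra hcon
    push Not at hcon
    exact hc (funext hcon)
  have h2 := hpush V X (p i) _ hp.dimV hX h1
  rw [map_sum, Finset.sum_eq_single i] at h2
  · rw [map_smul, push_pull_of (hp.pp i i.2), smul_smul] at h2
    have h3 := Submodule.smul_mem _ (c i * κ)⁻¹ h2
    rwa [smul_smul, inv_mul_cancel₀ (mul_ne_zero hi hp.hκ), one_smul] at h3
  · intro l _ hl
    rw [map_smul, push_pull_hom hp H l.2 i.2 (fun e => hl (Fin.ext e)) (hA X z hX hz).1
      (hA X z hX hz).2, smul_zero]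
  · intro h3
    exact absurd (Finset.mem_univ i) h3

lemma atMost_zero {M : Type*} [AddCommGroup M] [Module ℚ M] {A : Set M} {B : Submodule ℚ M}
    (h : ∀ z ∈ A, z ∈ B) : AtMost 0 A B := by
  intro z hz
  refine ⟨fun _ => 1, ?_, ?_⟩
  · intro h0
    exact one_ne_zero (congrFun h0 0)
  · exact Submodule.sum_mem _ fun i _ => Submodule.smul_mem _ _ (h _ (hz i))

omit hC in
lemma kills_comp_cograph [hC : IsChowProj C] {Γ : C.A (X.prod Y)} {m : ℤ} (hΓ : Kills H Γ m)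
    (f : V ⟶ Y) : Kills H (C.comp Γ (C.cograph f)) m := by
  intro a ha
  rw [actH_comp, hΓ a ha, H.act_map_zero]

end Pool.Agent.V1157.WF
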