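import Pool.Agent.V1157.WF.Core

/-!
# Bloch-Beilinson filtrations up to errors of bounded dimension
-/

open CategoryTheory AlgebraicGeometry

universe u v w

namespace Pool.Agent.V1157.WF

open Pool.Agent.H914 Pool.Agent.H914.VarClass Pool.Agent.H914.VarClass.Obj Pool.Agent.W492.BB
  Pool.Agent.W550.Corr Pool.Agent.TH133 Pool.Agent.Y148.BB Pool.Agent.V1157.BD
open Pool.Agent.V1157.RC (cog_gr pow_eq_sum pow_mem' act_smul' push_pull_of graph_mem)

set_option linter.unusedSectionVars false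

variable {k : Type u} [Field k] {𝒱 : VarClass k} {C : TheoryData.{u, v, 0} 𝒱 ℚ}
  [hC : IsChowProj C] {K : Type w} [Field K] {H : WeilTheoryData.{u, v, w} C K}
  [hH : IsWeilProj H] {S V X Y : 𝒱.Obj} {n : ℕ}
  {N : ∀ X : 𝒱.Obj, ℕ → Submodule ℚ (C.A X)} {F : ∀ X : 𝒱.Obj, ℕ → ℕ → Submodule ℚ (C.A X)}

lemma deg_cograph' (hV : V.dim = n) (hX : X.dim = n) (f : V ⟶ X) (j : ℕ) :
    C.Deg (X.dim + (j : ℤ) - j) (C.cograph f) :=
  gr_congr (by ring) (cograph_mem f)

lemma deg_graph' (hV : V.dim = n) (hX : X.dim = n) (f : V ⟶ X) (j : ℕ) :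
    C.Deg (V.dim + (j : ℤ) - j) (C.graph f) :=
  gr_congr (by rw [hV, hX]; ring) (graph_mem f)

lemma images_pull (hV : V.dim = n) (hY : Y.dim = n) (f : V ⟶ Y) {j i ν : ℕ} {z : C.A X}
    {w : C.A Y} (hw : w ∈ images H X Y j i ν z) : C.pull f w ∈ images H X V j i ν z := by
  obtain ⟨Γ, hΓ, hk, rfl⟩ := hw
  refine ⟨C.comp Γ (C.cograph f), ?_, kills_comp_cograph hk f, ?_⟩
  · have g1 : Γ ∈ C.gr (X.prod Y) (X.dim + ((i : ℤ) - j)) := gr_congr (by ring) hΓ
    have g2 : C.cograph f ∈ C.gr (Y.prod V) (Y.dim + 0) := gr_congr (by ring) (cograph_mem f)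
    exact gr_congr (by ring) (comp_mem C g1 g2)
  · rw [C.act_comp, C.act_cograph]

section

variable (hN : IsAbelJacobiKernel H N) (hF : IsBoundedBB H N F)
include hF

lemma IsBoundedBB.pull (hV : V.dim = n) (hX : X.dim = n) (f : V ⟶ X) {j ν : ℕ} {z : C.A X}
    (hz : z ∈ F X j ν) : C.pull f z ∈ F V j ν := by
  rw [← C.act_cograph]
  exact hF.stable X V j j ν _ (deg_cograph' hV hX f j) z hz

lemma IsBoundedBB.push (hV : V.dim = n) (hX : X.dim = n) (f : V ⟶ X) {j ν : ℕ} {z : C.A V}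
    (hz : z ∈ F V j ν) : C.push f z ∈ F X j ν := by
  rw [← C.act_graph]
  exact hF.stable V X j j ν _ (deg_graph' hV hX f j) z hz

lemma IsBoundedBB.le_zero {j ν : ℕ} {z : C.A X} (hz : z ∈ F X j ν) : z ∈ F X j 0 := by
  induction ν with
  | zero => exact hz
  | succ ν ih => exact ih (hF.anti X j ν hz)

lemma IsBoundedBB.le_one {j ν : ℕ} (hν : 0 < ν) {z : C.A X} (hz : z ∈ F X j ν) : z ∈ F X j 1 := by
  induction ν with
  | zero => omega
  | succ ν ih =>
    rcases Nat.eq_zero_or_pos ν with rfl | h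
    · exact hz
    · exact ih h (hF.anti X j ν hz)

lemma IsBoundedBB.hom {j ν : ℕ} (hν : 0 < ν) {z : C.A X} (hz : z ∈ F X j ν) :
    C.Deg j z ∧ H.cl z = 0 :=
  ⟨(hF.zero X j z).1 (hF.le_zero hz), hF.one_le X j z (hF.le_one hν hz)⟩

end

/-- **A filtration which satisfies the conditions of a Bloch-Beilinson filtration up to errors of
bounded dimension is a Bloch-Beilinson filtration.** -/
theorem bb_of_bounded (hN : IsAbelJacobiKernel H N)
    (hP : ∀ (S : 𝒱.Obj) (M : ℕ), HasPower C S.dim M S) (hF : IsBoundedBB H N F) :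
    IsBlochBeilinsonOn H N (fun _ => True) F := by
  have hP' : ∀ (n : ℕ) (S : 𝒱.Obj) (M : ℕ), S.dim = n → HasPower C n M S := by
    rintro n S M rfl
    exact hP S M
  have h1 : ∀ (X : 𝒱.Obj) (j : ℕ) (z : C.A X), C.Deg j z → H.cl z = 0 → z ∈ F X j 1 := by
    intro X j z hz h0
    obtain ⟨D, hD⟩ := hF.one X.dim j
    exact of_atMost H (hP' X.dim) (A := fun X => homTriv H X j) (B := fun X => F X j 1)
      (fun X z _ hz => hz)
      (fun V X f z hV hX hz => ⟨C.pull_mem f hz.1, by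
        have e := H.cl_pull f z
        rw [e, hz.2, map_zero]⟩)
      (fun V X f z hV hX hz => hF.push hV hX f hz) hD X rfl z ⟨hz, h0⟩
  refine ⟨fun X _ j ν => hF.anti X j ν, fun X _ j z => hF.zero X j z, ?_, ?_, ?_,
    fun X Y _ _ j i ν Γ hΓ z hz => hF.stable X Y j i ν Γ hΓ z hz, ?_⟩
  · intro X _ j z
    exact ⟨fun h => hF.hom Nat.one_pos h, fun h => h1 X j z h.1 h.2⟩
  · intro X _ j
    apply le_antisymm
    · intro z hz
      obtain ⟨D, hD⟩ := hF.two_le X.dim j
      exact of_atMost H (hP' X.dim) (A := fun X => (F X j 2 : Set (C.A X)))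
        (B := fun X => N X j) (fun X z _ hz => hF.hom (by norm_num) hz)
        (fun V X f z hV hX hz => hF.pull hV hX f hz)
        (fun V X f z hV hX hz => by
          rw [← C.act_graph]
          exact hN.stable V X j j _ (deg_graph' hV hX f j) z hz) hD X rfl z hz
    · intro z hz
      obtain ⟨D, hD⟩ := hF.two X.dim j
      exact of_atMost H (hP' X.dim) (A := fun X => (N X j : Set (C.A X)))
        (B := fun X => F X j 2) (fun X z _ hz => hN.deg X j z hz)
        (fun V X f z hV hX hz => by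
          change C.pull f z ∈ N V j
          rw [← C.act_cograph]
          exact hN.stable X V j j _ (deg_cograph' hV hX f j) z hz)
        (fun V X f z hV hX hz => hF.push hV hX f hz) hD X rfl z hz
  · intro X _ j
    rw [eq_bot_iff]
    intro z hz
    obtain ⟨D, hD⟩ := hF.top X.dim j
    exact of_atMost H (hP' X.dim) (A := fun X => (F X j (j + 1) : Set (C.A X)))
      (B := fun X => ⊥) (fun X z _ hz => hF.hom (Nat.succ_pos j) hz)
      (fun V X f z hV hX hz => hF.pull hV hX f hz)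
      (fun V X f z hV hX hz => by
        rw [Submodule.mem_bot] at hz ⊢
        rw [hz, map_zero]) hD X rfl z hz
  · intro X Y _ _ j i ν Γ hΓ hk z hz
    rcases Nat.eq_zero_or_pos ν with rfl | hν
    · have h2 : C.act Γ z ∈ F Y i 0 := hF.stable X Y j i 0 Γ hΓ z hz
      refine h1 Y i _ ((hF.zero Y i _).1 h2) ?_
      have e := cl_act (H := H) Γ z
      rw [e]
      apply hk
      have := H.cl_mem ((hF.zero X j z).1 hz)
      simpa using this
    · obtain ⟨D, hD⟩ := hF.shift X j i ν Y.dim z hν hz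
      refine of_atMost H (hP' Y.dim) (A := fun Y => images H X Y j i ν z)
        (B := fun Y => F Y i (ν + 1)) (j := i) ?_
        (fun V Y f w hV hY hw => images_pull hV hY f hw)
        (fun V Y f w hV hY hw => hF.push hV hY f hw) hD Y rfl _ ⟨Γ, hΓ, hk, rfl⟩
      rintro Y' w _ ⟨Γ', hΓ', hk', rfl⟩
      exact hF.hom hν (hF.stable X Y' j i ν Γ' hΓ' z hz)

theorem bounded_of_bb (hF : IsBlochBeilinsonOn H N (fun _ => True) F) : IsBoundedBB H N F where
  anti X j ν := hF.anti X trivial j ν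
  zero X j z := hF.zero X trivial j z
  one_le X j z hz := ((hF.one X trivial j z).1 hz).2
  one n j := ⟨0, fun X _ => atMost_zero fun z hz => (hF.one X trivial j z).2 hz⟩
  two_le n j := ⟨0, fun X _ => atMost_zero fun z hz => hF.two X trivial j ▸ hz⟩
  two n j := ⟨0, fun X _ => atMost_zero fun z hz => hF.two X trivial j ▸ hz⟩
  top n j := ⟨0, fun X _ => atMost_zero fun z hz => hF.top X trivial j ▸ hz⟩
  stable X Y j i ν Γ hΓ z hz := hF.stable X Y trivial trivial j i ν Γ hΓ z hz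
  shift X j i ν m z _ hz := ⟨0, fun Y _ => atMost_zero fun w hw => by
    obtain ⟨Γ, hΓ, hk, rfl⟩ := hw
    exact hF.shift X Y trivial trivial j i ν Γ hΓ hk z hz⟩

end Pool.Agent.V1157.WF
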