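import Pool.Agent.V1157.BD.Defs
import Pool.Agent.Y148.BB.Defs

/-!
# Bloch-Beilinson filtrations up to errors of bounded dimension: definitions
-/

open CategoryTheory AlgebraicGeometry

universe u v w

namespace Pool.Agent.V1157.WF

open Pool.Agent.H914 Pool.Agent.H914.VarClass Pool.Agent.H914.VarClass.Obj Pool.Agent.W492.BB

/-- The elements of `A` span, modulo the subspace `B`, a space of dimension at most `D`. -/
def AtMost {M : Type*} [AddCommGroup M] [Module ℚ M] (D : ℕ) (A : Set M) (B : Submodule ℚ M) :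
    Prop :=
  ∀ z : Fin (D + 1) → M, (∀ i, z i ∈ A) → ∃ c : Fin (D + 1) → ℚ, c ≠ 0 ∧ ∑ i, c i • z i ∈ B

variable {k : Type u} [Field k] {𝒱 : VarClass k} {C : TheoryData.{u, v, 0} 𝒱 ℚ} {K : Type w}
  [Field K] (H : WeilTheoryData.{u, v, w} C K)

/-- The homologically trivial classes of codimension `j` on `X`. -/
def homTriv (X : 𝒱.Obj) (j : ℕ) : Set (C.A X) := {z | C.Deg j z ∧ H.cl z = 0}

/-- The classes `Γ_* z` in `CH^i(Y)` for the correspondences `Γ` of all degrees from `X` to `Y`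
which act as zero on `H^{2j-ν}(X)`; here `z ∈ CH^j(X)`. -/
def images (X Y : 𝒱.Obj) (j i ν : ℕ) (z : C.A X) : Set (C.A Y) :=
  {w | ∃ Γ : C.A (X.prod Y), C.Deg (X.dim + i - j) Γ ∧ Kills H Γ (2 * j - ν) ∧ w = C.act Γ z}

/-- `F X j ν` is the step `F^ν CH^j(X)` of a Bloch-Beilinson filtration up to errors of bounded
dimension (`N X j` is the kernel of the Abel-Jacobi map): the steps are respected by all
correspondences, `F^1` consists of homologically trivial classes, and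
* the dimensions of `CH^j(X)_hom / F^1`, of `(F^2 + N) / N` and `(F^2 + N) / F^2`, and of
  `F^{j+1} CH^j(X)` are bounded over the varieties `X` of any given dimension;
* for `z ∈ F^ν CH^j(X)`, `ν > 0`, the dimensions of the subspaces of `Gr^ν CH^i(Y)` spanned by the
  classes `Γ_* z`, `Γ` zero on `H^{2j-ν}(X)`, are bounded over the varieties `Y` of any given
  dimension. -/
structure IsBoundedBB (N : ∀ X : 𝒱.Obj, ℕ → Submodule ℚ (C.A X))
    (F : ∀ X : 𝒱.Obj, ℕ → ℕ → Submodule ℚ (C.A X)) : Prop where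
  anti : ∀ (X : 𝒱.Obj) (j ν : ℕ), F X j (ν + 1) ≤ F X j ν
  zero : ∀ (X : 𝒱.Obj) (j : ℕ) (z : C.A X), z ∈ F X j 0 ↔ C.Deg j z
  one_le : ∀ (X : 𝒱.Obj) (j : ℕ) (z : C.A X), z ∈ F X j 1 → H.cl z = 0
  one : ∀ n j : ℕ, ∃ D, ∀ X : 𝒱.Obj, X.dim = n → AtMost D (homTriv H X j) (F X j 1)
  two_le : ∀ n j : ℕ, ∃ D, ∀ X : 𝒱.Obj, X.dim = n → AtMost D (F X j 2) (N X j)
  two : ∀ n j : ℕ, ∃ D, ∀ X : 𝒱.Obj, X.dim = n → AtMost D (N X j) (F X j 2)
  top : ∀ n j : ℕ, ∃ D, ∀ X : 𝒱.Obj, X.dim = n → AtMost (M := C.A X) D (F X j (j + 1)) ⊥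
  stable : ∀ (X Y : 𝒱.Obj) (j i ν : ℕ) (Γ : C.A (X.prod Y)), C.Deg (X.dim + i - j) Γ →
    ∀ z ∈ F X j ν, C.act Γ z ∈ F Y i ν
  shift : ∀ (X : 𝒱.Obj) (j i ν m : ℕ) (z : C.A X), 0 < ν → z ∈ F X j ν →
    ∃ D, ∀ Y : 𝒱.Obj, Y.dim = m → AtMost D (images H X Y j i ν z) (F Y i (ν + 1))

end Pool.Agent.V1157.WF
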